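import Mathlib

open Finset Complex Filter Topology

namespace Pool.Agent.Results.MP_7e420e_nt.Sparse

/-- rising product `(-s)(-s-1)...(-s-k+1)` -/
noncomputable def PP (s : ℂ) (k : ℕ) : ℂ := ∏ l ∈ range k, (-s - l)

theorem PP_ne {s : ℂ} (hs : 0 < s.re) (k : ℕ) : PP s k ≠ 0 := by
  unfold PP
  rw [Finset.prod_ne_zero_iff]
  intro l _ h
  have : (-s - (l:ℂ)).re = 0 := by rw [h]; simp
  simp at this
  have : (0:ℝ) ≤ l := by positivity
  linarith

noncomputable def ff (s : ℂ) (x : ℝ) (u : ℝ) : ℂ := ((1 + x * u : ℝ) : ℂ) ^ (-s)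

theorem hasDeriv_aux {x : ℝ} {r : ℂ} (hr : r ≠ 0) {u : ℝ} (hu : 0 < 1 + x * u) :
    HasDerivAt (fun u : ℝ => ((1 + x * u : ℝ) : ℂ) ^ r)
      (x • (r * ((1 + x * u : ℝ) : ℂ) ^ (r - 1))) u := by
  have h1 := hasDerivAt_ofReal_cpow_const hu.ne' hr
  have h2 : HasDerivAt (fun u : ℝ => 1 + x * u) x u := by
    have := ((hasDerivAt_id u).const_mul x).const_add 1
    simpa using this
  exact HasDerivAt.scomp u h1 h2

theorem itd {s : ℂ} (hs : 0 < s.re) {x b : ℝ} (hx : 0 < x) (hb : 0 < b) (k : ℕ) :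
    ∀ u ∈ Set.Icc 0 b, iteratedDerivWithin k (ff s x) (Set.Icc 0 b) u
      = PP s k * x ^ k * ((1 + x * u : ℝ) : ℂ) ^ (-s - k) := by
  induction k with
  | zero =>
    intro u _
    simp [PP, ff]
  | succ k ih =>
    intro u hu
    rw [iteratedDerivWithin_succ]
    rw [derivWithin_congr (fun v hv => ih v hv) (ih u hu)]
    have hpos : 0 < 1 + x * u := by
      have := mul_nonneg hx.le hu.1
      linarith
    have hr : -s - (k:ℂ) ≠ 0 := by
      intro h
      have : (-s - (k:ℂ)).re = 0 := by rw [h]; simp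
      simp at this
      have : (0:ℝ) ≤ k := by positivity
      linarith
    have hd := ((hasDeriv_aux hr hpos).const_mul (PP s k * x ^ k)).hasDerivWithinAt
      (s := Set.Icc 0 b)
    rw [hd.derivWithin ((uniqueDiffOn_Icc hb) u hu)]
    have e1 : PP s (k+1) = PP s k * (-s - k) := by
      unfold PP
      rw [Finset.prod_range_succ]
    have e2 : -s - ((k+1 : ℕ) : ℂ) = -s - k - 1 := by push_cast; ring
    rw [e1, e2, Complex.real_smul]
    ring

theorem ff_cd {s : ℂ} (hs : 0 < s.re) {x b : ℝ} (hx : 0 < x) (hb : 0 < b) (n : ℕ) :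
    ContDiffOn ℝ n (ff s x) (Set.Icc 0 b) := by
  have : ContDiffOn ℝ ((n : ℕ∞) : WithTop ℕ∞) (ff s x) (Set.Icc 0 b) := by
    apply contDiffOn_of_differentiableOn_deriv
    intro m _
    refine DifferentiableOn.congr ?_ (fun u hu => itd hs hx hb m u hu)
    intro u hu
    have hpos : 0 < 1 + x * u := by
      have := mul_nonneg hx.le hu.1
      linarith
    have hr : -s - (m:ℂ) ≠ 0 := by
      intro h
      have : (-s - (m:ℂ)).re = 0 := by rw [h]; simp
      simp at this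
      have : (0:ℝ) ≤ m := by positivity
      linarith
    exact ((hasDeriv_aux hr hpos).const_mul (PP s m * x ^ m)).differentiableAt.differentiableWithinAt
  exact_mod_cast this

theorem moment {h : ℕ} {a : ℕ → ℤ} (ha : ∃ j, 1 ≤ j ∧ j ≤ h ∧ a j ≠ 0) :
    ∃ i < h, ∑ j ∈ Icc 1 h, a j * (j:ℤ) ^ i ≠ 0 := by
  by_contra hcon
  push Not at hcon
  have key : (fun j : Fin h => a (j+1)) = 0 := by
    apply Matrix.eq_zero_of_forall_pow_sum_mul_pow_eq_zero (f := fun j : Fin h => ((j:ℕ):ℤ) + 1)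
    · intro p q hpq
      simp only [add_left_inj, Nat.cast_inj] at hpq
      exact Fin.ext hpq
    · intro i
      have := hcon i i.2
      rw [← this]
      rw [Fin.sum_univ_eq_sum_range (fun j => a (j+1) * ((j:ℤ)+1) ^ (i:ℕ)) h]
      have e1 := Finset.sum_Ico_add' (fun j => a j * (j:ℤ) ^ (i:ℕ)) 0 h 1
      have e2 : Ico (0+1) (h+1) = Icc 1 h := by
        ext j
        simp only [Finset.mem_Ico, Finset.mem_Icc]
        omega
      rw [e2] at e1
      push_cast at e1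
      rw [Finset.range_eq_Ico]
      exact e1
  obtain ⟨j, h1, h2, h3⟩ := ha
  have := congrFun key ⟨j-1, by omega⟩
  simp only [Pi.zero_apply] at this
  apply h3
  have e : j - 1 + 1 = j := by omega
  rw [e] at this
  exact this

theorem main_ne {s : ℂ} (hs : 0 < s.re) {h : ℕ} {a : ℕ → ℤ} (ha1 : ∀ j, |a j| ≤ 1)
    (ha : ∃ j, 1 ≤ j ∧ j ≤ h ∧ a j ≠ 0) {x : ℝ} (hx : 0 < x)
    (hxs : (h:ℝ) ^ (h+1) * (‖s‖ + h) * x < 1) :
    ∑ j ∈ Icc 1 h, (a j : ℂ) * ff s x j ≠ 0 := by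
  classical
  have hh : 1 ≤ h := by
    obtain ⟨j, h1, h2, _⟩ := ha
    omega
  have hh0 : (0:ℝ) < h := by exact_mod_cast hh
  have hh1 : (1:ℝ) ≤ h := by exact_mod_cast hh
  have hex := moment ha
  have hex' : ∃ i, i < h ∧ ∑ j ∈ Icc 1 h, a j * (j:ℤ) ^ i ≠ 0 := hex
  set i := Nat.find hex' with hi
  have hi1 : i < h := (Nat.find_spec hex').1
  have hi2 : ∑ j ∈ Icc 1 h, a j * (j:ℤ) ^ i ≠ 0 := (Nat.find_spec hex').2
  have hmin : ∀ k < i, ∑ j ∈ Icc 1 h, a j * (j:ℤ) ^ k = 0 := by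
    intro k hk
    by_contra hne
    exact (Nat.find_min hex' hk) ⟨hk.trans hi1, hne⟩
  set Mi : ℤ := ∑ j ∈ Icc 1 h, a j * (j:ℤ) ^ i with hMi
  intro hzero
  have htay : ∀ j ∈ Icc 1 h, ‖ff s x j - taylorWithinEval (ff s x) i (Set.Icc 0 (h:ℝ)) 0 j‖
      ≤ (‖PP s (i+1)‖ * x ^ (i+1)) * ((j:ℝ) - 0) ^ (i+1) / (i.factorial) := by
    intro j hj
    simp only [Finset.mem_Icc] at hj
    apply taylor_mean_remainder_bound hh0.le (by exact_mod_cast ff_cd hs hx hh0 (i+1))
    · constructor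
      · positivity
      · exact_mod_cast hj.2
    · intro y hy
      rw [itd hs hx hh0 (i+1) y hy]
      have hpos : 0 < 1 + x * y := by
        have := mul_nonneg hx.le hy.1
        linarith
      rw [norm_mul, norm_mul, norm_pow, Complex.norm_real, Real.norm_of_nonneg hx.le,
        Complex.norm_cpow_eq_rpow_re_of_pos hpos]
      have : (1 + x * y) ^ ((-s - ((i+1:ℕ):ℂ)).re) ≤ 1 := by
        apply Real.rpow_le_one_of_one_le_of_nonpos
        · have := mul_nonneg hx.le hy.1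
          linarith
        · simp
          have : (0:ℝ) ≤ i := by positivity
          linarith
      have h0 : 0 ≤ ‖PP s (i+1)‖ * x ^ (i+1) := by positivity
      calc ‖PP s (i+1)‖ * x ^ (i+1) * (1 + x * y) ^ ((-s - ((i+1:ℕ):ℂ)).re)
          ≤ ‖PP s (i+1)‖ * x ^ (i+1) * 1 := mul_le_mul_of_nonneg_left this h0
        _ = _ := mul_one _
  have hT : ∑ j ∈ Icc 1 h, (a j : ℂ) * taylorWithinEval (ff s x) i (Set.Icc 0 (h:ℝ)) 0 j
      = PP s i * x ^ i * (Mi : ℂ) / i.factorial := by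
    have e1 : ∀ j : ℕ, taylorWithinEval (ff s x) i (Set.Icc 0 (h:ℝ)) 0 j
        = ∑ k ∈ range (i+1), ((k.factorial : ℂ)⁻¹ * (j:ℂ) ^ k) * (PP s k * x ^ k) := by
      intro j
      rw [taylor_within_apply]
      apply Finset.sum_congr rfl
      intro k _
      rw [itd hs hx hh0 k 0 ⟨le_refl _, hh0.le⟩]
      rw [Complex.real_smul]
      push_cast
      simp
    simp_rw [e1]
    have e2 : ∑ j ∈ Icc 1 h, (a j : ℂ) * ∑ k ∈ range (i+1),
        ((k.factorial : ℂ)⁻¹ * (j:ℂ) ^ k) * (PP s k * x ^ k)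
        = ∑ k ∈ range (i+1), (k.factorial : ℂ)⁻¹ * (PP s k * x ^ k) *
          ((∑ j ∈ Icc 1 h, a j * (j:ℤ) ^ k : ℤ) : ℂ) := by
      simp_rw [Finset.mul_sum]
      rw [Finset.sum_comm]
      apply Finset.sum_congr rfl
      intro k _
      push_cast
      rw [Finset.mul_sum]
      apply Finset.sum_congr rfl
      intro j _
      ring
    rw [e2, Finset.sum_range_succ]
    have e3 : ∑ k ∈ range i, (k.factorial : ℂ)⁻¹ * (PP s k * x ^ k) *
          ((∑ j ∈ Icc 1 h, a j * (j:ℤ) ^ k : ℤ) : ℂ) = 0 := by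
      apply Finset.sum_eq_zero
      intro k hk
      rw [hmin k (Finset.mem_range.1 hk)]
      simp
    rw [e3, zero_add, ← hMi]
    ring
  have hsum : PP s i * x ^ i * (Mi : ℂ) / i.factorial
      = - ∑ j ∈ Icc 1 h, (a j : ℂ) * (ff s x j
        - taylorWithinEval (ff s x) i (Set.Icc 0 (h:ℝ)) 0 j) := by
    rw [← hT]
    simp_rw [mul_sub]
    rw [Finset.sum_sub_distrib, hzero]
    ring
  have hnorm : ‖PP s i‖ * x ^ i * |(Mi:ℝ)| / i.factorial
      ≤ h * ((‖PP s (i+1)‖ * x ^ (i+1)) * (h:ℝ) ^ (i+1) / (i.factorial)) := by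
    have e1 : ‖PP s i * x ^ i * (Mi : ℂ) / i.factorial‖
        = ‖PP s i‖ * x ^ i * |(Mi:ℝ)| / i.factorial := by
      rw [norm_div, norm_mul, norm_mul, norm_pow, Complex.norm_real, Real.norm_of_nonneg hx.le]
      simp
    rw [← e1, hsum, norm_neg]
    refine (norm_sum_le _ _).trans ?_
    have : ∀ j ∈ Icc 1 h, ‖(a j : ℂ) * (ff s x j
        - taylorWithinEval (ff s x) i (Set.Icc 0 (h:ℝ)) 0 j)‖
        ≤ (‖PP s (i+1)‖ * x ^ (i+1)) * (h:ℝ) ^ (i+1) / (i.factorial) := by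
      intro j hj
      rw [norm_mul]
      have h1 : ‖(a j : ℂ)‖ ≤ 1 := by
        have := ha1 j
        rw [Complex.norm_intCast]
        exact_mod_cast this
      have h2 := htay j hj
      simp only [Finset.mem_Icc] at hj
      have h3 : ((j:ℝ) - 0) ^ (i+1) ≤ (h:ℝ) ^ (i+1) := by
        rw [sub_zero]
        apply pow_le_pow_left₀ (by positivity)
        exact_mod_cast hj.2
      have h4 : (‖PP s (i+1)‖ * x ^ (i+1)) * ((j:ℝ) - 0) ^ (i+1) / (i.factorial)
          ≤ (‖PP s (i+1)‖ * x ^ (i+1)) * (h:ℝ) ^ (i+1) / (i.factorial) := by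
        apply div_le_div_of_nonneg_right _ (by positivity)
        apply mul_le_mul_of_nonneg_left h3 (by positivity)
      calc _ ≤ 1 * ‖ff s x j - taylorWithinEval (ff s x) i (Set.Icc 0 (h:ℝ)) 0 j‖ :=
            mul_le_mul_of_nonneg_right h1 (norm_nonneg _)
        _ ≤ _ := by rw [one_mul]; exact h2.trans h4
    refine (Finset.sum_le_sum this).trans ?_
    rw [Finset.sum_const, Nat.card_Icc, nsmul_eq_mul]
    simp
  have hfac : (0:ℝ) < i.factorial := by exact_mod_cast i.factorial_pos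
  have hPP : 0 < ‖PP s i‖ := norm_pos_iff.2 (PP_ne hs i)
  have hMi1 : (1:ℝ) ≤ |(Mi:ℝ)| := by
    have : 1 ≤ |Mi| := Int.one_le_abs hi2
    exact_mod_cast this
  have e1 : ‖PP s (i+1)‖ = ‖PP s i‖ * ‖-s - i‖ := by
    unfold PP
    rw [Finset.prod_range_succ, norm_mul]
  rw [e1] at hnorm
  have h1 : ‖PP s i‖ * x ^ i * |(Mi:ℝ)|
      ≤ ‖PP s i‖ * x ^ i * ((h:ℝ) ^ (i+2) * ‖-s - i‖ * x) := by
    have := mul_le_mul_of_nonneg_right hnorm hfac.le
    have e2 : ‖PP s i‖ * x ^ i * |(Mi:ℝ)| / i.factorial * i.factorial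
        = ‖PP s i‖ * x ^ i * |(Mi:ℝ)| := by field_simp
    have e3 : h * ((‖PP s i‖ * ‖-s - i‖ * x ^ (i+1)) * (h:ℝ) ^ (i+1) / (i.factorial))
        * i.factorial = ‖PP s i‖ * x ^ i * ((h:ℝ) ^ (i+2) * ‖-s - i‖ * x) := by
      field_simp
      ring
    rw [e2, e3] at this
    exact this
  have hc : 0 < ‖PP s i‖ * x ^ i := by positivity
  have h2 : |(Mi:ℝ)| ≤ (h:ℝ) ^ (i+2) * ‖-s - i‖ * x := le_of_mul_le_mul_left h1 hc
  have h3 : ‖-s - (i:ℂ)‖ ≤ ‖s‖ + h := by
    refine (norm_sub_le _ _).trans ?_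
    rw [norm_neg]
    have : ‖(i:ℂ)‖ ≤ h := by
      rw [Complex.norm_natCast]
      exact_mod_cast hi1.le
    linarith
  have h4 : (h:ℝ) ^ (i+2) ≤ (h:ℝ) ^ (h+1) := pow_le_pow_right₀ hh1 (by omega)
  have h5 : (h:ℝ) ^ (i+2) * ‖-s - i‖ * x ≤ (h:ℝ) ^ (h+1) * (‖s‖ + h) * x := by
    apply mul_le_mul_of_nonneg_right _ hx.le
    exact mul_le_mul h4 h3 (norm_nonneg _) (by positivity)
  linarith

theorem abel (a u : ℕ → ℂ) (N : ℕ) :
    ∑ i ∈ range N, a i * u i = (∑ i ∈ range N, a i) * u N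
      + ∑ i ∈ range N, (∑ k ∈ range (i+1), a k) * (u i - u (i+1)) := by
  induction N with
  | zero => simp
  | succ N ih =>
    rw [Finset.sum_range_succ, ih, Finset.sum_range_succ _ N, Finset.sum_range_succ _ N,
      Finset.sum_range_succ]
    ring

/-- difference bound for `x ^ (-w)` -/
theorem diff_bound {w : ℂ} (hw : 0 < w.re) (n : ℕ) :
    ‖((n:ℂ)+1) ^ (-w) - ((n:ℂ)+1+1) ^ (-w)‖ ≤ ‖w‖ * ((n:ℝ)+1) ^ (-w.re - 1) := by
  have hw0 : -w ≠ 0 := by
    intro h
    have : w = 0 := by simpa using h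
    simp [this] at hw
  have hn : (0:ℝ) < (n:ℝ)+1 := by positivity
  have h := Convex.norm_image_sub_le_of_norm_hasDerivWithin_le
    (f := fun x : ℝ => (x:ℂ) ^ (-w)) (f' := fun x : ℝ => (-w) * (x:ℂ) ^ (-w - 1))
    (C := ‖w‖ * ((n:ℝ)+1) ^ (-w.re - 1)) (s := Set.Icc ((n:ℝ)+1) ((n:ℝ)+1+1))
    (x := (n:ℝ)+1+1) (y := (n:ℝ)+1) ?_ ?_ (convex_Icc _ _) ?_ ?_
  · have e : ‖((n:ℝ)+1) - ((n:ℝ)+1+1)‖ = 1 := by
      simp
    rw [e, mul_one] at h
    push_cast at h
    exact h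
  · intro x hx
    have hx0 : x ≠ 0 := by
      have := hx.1
      intro h0
      rw [h0] at this
      linarith
    exact (hasDerivAt_ofReal_cpow_const hx0 hw0).hasDerivWithinAt
  · intro x hx
    have hx0 : 0 < x := lt_of_lt_of_le hn hx.1
    rw [norm_mul, norm_neg]
    apply mul_le_mul_of_nonneg_left _ (norm_nonneg _)
    rw [Complex.norm_cpow_eq_rpow_re_of_pos hx0]
    simp only [sub_re, neg_re, one_re]
    exact Real.rpow_le_rpow_of_nonpos hn hx.1 (by linarith)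
  · constructor
    · linarith
    · exact le_refl _
  · constructor
    · exact le_refl _
    · linarith

section
variable {ρ : ℂ}

/-- coefficients -/
noncomputable def co (ρ : ℂ) (i : ℕ) : ℂ :=
  (ArithmeticFunction.moebius (i+1) : ℂ) * ((i:ℂ)+1) ^ (-ρ)

noncomputable def Aa (ρ : ℂ) (n : ℕ) : ℂ := ∑ k ∈ range (n+1), co ρ k

noncomputable def uu (w : ℂ) (n : ℕ) : ℂ := ((n:ℂ)+1) ^ (-w)

noncomputable def Fn (ρ : ℂ) (n : ℕ) (w : ℂ) : ℂ := Aa ρ n * (uu w n - uu w (n+1))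

theorem uu_diff_le {w : ℂ} (hw : 0 < w.re) (n : ℕ) :
    ‖uu w n - uu w (n+1)‖ ≤ ‖w‖ * ((n:ℝ)+1) ^ (-w.re - 1) := by
  have := diff_bound hw n
  unfold uu
  push_cast
  exact this

theorem summ_aux {δ : ℝ} (hδ : 0 < δ) (c : ℝ) :
    Summable fun n : ℕ => c * ((n:ℝ)+1) ^ (-δ - 1) := by
  apply Summable.mul_left
  have h1 : Summable fun n : ℕ => (n:ℝ) ^ (-δ - 1) := Real.summable_nat_rpow.2 (by linarith)
  have h2 := (summable_nat_add_iff 1).2 h1
  refine h2.congr ?_
  intro n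
  push_cast
  rfl

theorem Fn_bound {M : ℝ} (hM : ∀ n, ‖Aa ρ n‖ ≤ M) {δ R : ℝ} {w : ℂ}
    (hδ : 0 < δ) (hw : δ < w.re) (hR : ‖w‖ < R) (n : ℕ) :
    ‖Fn ρ n w‖ ≤ (M * R) * ((n:ℝ)+1) ^ (-δ - 1) := by
  unfold Fn
  rw [norm_mul]
  have hM0 : 0 ≤ M := le_trans (norm_nonneg _) (hM 0)
  have hn : (1:ℝ) ≤ (n:ℝ)+1 := by
    have : (0:ℝ) ≤ n := by positivity
    linarith
  have h1 : ‖uu w n - uu w (n+1)‖ ≤ R * ((n:ℝ)+1) ^ (-δ - 1) := by
    refine (uu_diff_le (hδ.trans hw) n).trans ?_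
    have h2 : ((n:ℝ)+1) ^ (-w.re - 1) ≤ ((n:ℝ)+1) ^ (-δ - 1) :=
      Real.rpow_le_rpow_of_exponent_le hn (by linarith)
    have h3 : 0 ≤ ((n:ℝ)+1) ^ (-w.re - 1) := by positivity
    exact mul_le_mul hR.le h2 h3 (le_trans (norm_nonneg _) hR.le)
  calc ‖Aa ρ n‖ * ‖uu w n - uu w (n+1)‖ ≤ M * (R * ((n:ℝ)+1) ^ (-δ - 1)) :=
        mul_le_mul (hM n) h1 (norm_nonneg _) hM0
    _ = _ := by ring

noncomputable def Gg (ρ w : ℂ) : ℂ := ∑' n, Fn ρ n w

theorem Fn_diff (n : ℕ) : Differentiable ℂ (Fn ρ n) := by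
  unfold Fn uu
  intro w
  apply DifferentiableAt.const_mul
  apply DifferentiableAt.sub
  · apply DifferentiableAt.const_cpow
    · fun_prop
    · left
      exact_mod_cast Nat.succ_ne_zero n
  · apply DifferentiableAt.const_cpow
    · fun_prop
    · left
      have : ((n+1:ℕ):ℂ) + 1 = ((n+1+1 : ℕ):ℂ) := by push_cast; rfl
      rw [this]
      exact_mod_cast Nat.succ_ne_zero (n+1)

theorem Gg_diff {M : ℝ} (hM : ∀ n, ‖Aa ρ n‖ ≤ M) :
    DifferentiableOn ℂ (Gg ρ) {w | 0 < w.re} := by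
  intro w0 hw0
  have hw0' : 0 < w0.re := hw0
  set δ := w0.re / 2 with hδ
  set R := ‖w0‖ + 1 with hR
  set V : Set ℂ := {w | δ < w.re ∧ ‖w‖ < R} with hV
  have hδ0 : 0 < δ := by rw [hδ]; linarith
  have hVo : IsOpen V := by
    apply IsOpen.inter
    · exact isOpen_lt continuous_const continuous_re
    · exact isOpen_lt continuous_norm continuous_const
  have hmem : w0 ∈ V := by
    constructor
    · rw [hδ]; linarith
    · rw [hR]; linarith
  have := differentiableOn_tsum_of_summable_norm (F := fun n w => Fn ρ n w)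
    (summ_aux hδ0 (M * R)) (fun i => (Fn_diff i).differentiableOn) hVo
    (fun i w hw => Fn_bound hM hδ0 hw.1 hw.2 i)
  exact ((this w0 hmem).differentiableAt (hVo.mem_nhds hmem)).differentiableWithinAt

theorem Fn_summable {M : ℝ} (hM : ∀ n, ‖Aa ρ n‖ ≤ M) {w : ℂ} (hw : 0 < w.re) :
    Summable fun n => Fn ρ n w := by
  refine Summable.of_norm_bounded (summ_aux (half_pos hw) (M * (‖w‖ + 1))) ?_
  intro n
  exact Fn_bound hM (half_pos hw) (by linarith) (by linarith) n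

theorem uu_norm (w : ℂ) (n : ℕ) : ‖uu w n‖ = ((n:ℝ)+1) ^ (-w.re) := by
  unfold uu
  have hn : (0:ℝ) < (n:ℝ)+1 := by positivity
  have : ((n:ℂ)+1) = (((n:ℝ)+1 : ℝ) : ℂ) := by push_cast; rfl
  rw [this, Complex.norm_cpow_eq_rpow_re_of_pos hn]
  simp

theorem psum_eq (w : ℂ) (N : ℕ) :
    ∑ i ∈ range (N+1), co ρ i * uu w i = Aa ρ N * uu w (N+1) + ∑ i ∈ range (N+1), Fn ρ i w := by
  have := abel (co ρ) (uu w) (N+1)
  rw [this]
  rfl

theorem tend_aux {M : ℝ} (hM : ∀ n, ‖Aa ρ n‖ ≤ M) {w : ℂ} (hw : 0 < w.re) :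
    Tendsto (fun N => Aa ρ N * uu w (N+1)) atTop (𝓝 0) := by
  have h1 : Tendsto (fun N : ℕ => M * (((N:ℝ)+1+1)) ^ (-w.re)) atTop (𝓝 0) := by
    have h2 : Tendsto (fun N : ℕ => ((N:ℝ)+1+1)) atTop atTop := by
      apply tendsto_atTop_add_const_right
      apply tendsto_atTop_add_const_right
      exact tendsto_natCast_atTop_atTop
    have h3 := (tendsto_rpow_neg_atTop hw).comp h2
    have := h3.const_mul M
    simpa using this
  refine squeeze_zero_norm ?_ h1
  intro N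
  rw [norm_mul, uu_norm]
  push_cast
  apply mul_le_mul_of_nonneg_right (hM N)
  positivity

theorem tend_psum {M : ℝ} (hM : ∀ n, ‖Aa ρ n‖ ≤ M) {w : ℂ} (hw : 0 < w.re) :
    Tendsto (fun N => ∑ i ∈ range (N+1), co ρ i * uu w i) atTop (𝓝 (Gg ρ w)) := by
  have h1 := (Fn_summable hM hw).hasSum.tendsto_sum_nat
  have h2 := h1.comp (tendsto_add_atTop_nat 1)
  have h3 := (tend_aux hM hw).add h2
  rw [zero_add] at h3
  refine h3.congr ?_
  intro N
  rw [psum_eq]
  rfl

theorem Gg_eq {M : ℝ} (hM : ∀ n, ‖Aa ρ n‖ ≤ M) {s : ℂ} (hs : 1 < s.re) (hρ : ρ.re < s.re) :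
    Gg ρ (s - ρ) * riemannZeta s = 1 := by
  have h1 := ArithmeticFunction.LSeries_zeta_mul_Lseries_moebius hs
  rw [ArithmeticFunction.LSeries_zeta_eq_riemannZeta hs] at h1
  have h2 := (ArithmeticFunction.LSeriesSummable_moebius_iff.mpr hs).LSeriesHasSum
  have h3 : Tendsto (fun N => ∑ i ∈ range N, LSeries.term
      (fun n => (ArithmeticFunction.moebius n : ℂ)) s i) atTop
      (𝓝 (LSeries (fun n => (ArithmeticFunction.moebius n : ℂ)) s)) := h2.tendsto_sum_nat
  have h4 := h3.comp (tendsto_add_atTop_nat 2)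
  have h5 : Tendsto (fun N => ∑ i ∈ range (N+1), co ρ i * uu (s-ρ) i) atTop
      (𝓝 (LSeries (fun n => (ArithmeticFunction.moebius n : ℂ)) s)) := by
    refine h4.congr ?_
    intro N
    simp only [Function.comp_apply]
    rw [Finset.sum_range_succ']
    rw [LSeries.term_zero, add_zero]
    apply Finset.sum_congr rfl
    intro i _
    rw [LSeries.term_of_ne_zero (Nat.succ_ne_zero i)]
    unfold co uu
    have hne : ((i:ℂ)+1) ≠ 0 := by exact_mod_cast Nat.succ_ne_zero i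
    rw [mul_assoc, ← Complex.cpow_add _ _ hne]
    have : -ρ + -(s - ρ) = -s := by ring
    rw [this, Complex.cpow_neg]
    push_cast
    rw [div_eq_mul_inv]
  have h6 := tend_psum hM (w := s - ρ) (by simp; linarith)
  have h7 := tendsto_nhds_unique h6 h5
  rw [h7, mul_comm]
  exact h1

theorem Gg_bound {M : ℝ} (hM : ∀ n, ‖Aa ρ n‖ ≤ M) {ε : ℝ} (hε : 0 < ε) :
    ‖Gg ρ (ε:ℂ)‖ ≤ M := by
  have h1 := (Fn_summable hM (w := (ε:ℂ)) (by simpa using hε)).hasSum.tendsto_sum_nat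
  have hM0 : 0 ≤ M := le_trans (norm_nonneg _) (hM 0)
  refine le_of_tendsto h1.norm (Eventually.of_forall fun N => ?_)
  have key : ∀ N : ℕ, ‖∑ i ∈ range N, Fn ρ i (ε:ℂ)‖ ≤ M * (1 - ((N:ℝ)+1) ^ (-ε)) := by
    intro N
    induction N with
    | zero => simp
    | succ N ih =>
      rw [Finset.sum_range_succ]
      refine (norm_add_le _ _).trans ?_
      have h2 : ‖Fn ρ N (ε:ℂ)‖ ≤ M * (((N:ℝ)+1) ^ (-ε) - ((N:ℝ)+1+1) ^ (-ε)) := by
        unfold Fn
        rw [norm_mul]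
        have e1 : uu (ε:ℂ) N = ((((N:ℝ)+1) ^ (-ε) : ℝ) : ℂ) := by
          unfold uu
          rw [Complex.ofReal_cpow (by positivity)]
          push_cast
          rfl
        have e2 : uu (ε:ℂ) (N+1) = ((((N:ℝ)+1+1) ^ (-ε) : ℝ) : ℂ) := by
          unfold uu
          rw [Complex.ofReal_cpow (by positivity)]
          push_cast
          rfl
        have e3 : ((N:ℝ)+1+1) ^ (-ε) ≤ ((N:ℝ)+1) ^ (-ε) :=
          Real.rpow_le_rpow_of_nonpos (by positivity) (by linarith) (by linarith)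
        rw [e1, e2, ← Complex.ofReal_sub, Complex.norm_real, Real.norm_of_nonneg (by linarith)]
        exact mul_le_mul_of_nonneg_right (hM N) (by linarith)
      push_cast
      nlinarith [ih, h2]
  refine (key N).trans ?_
  have : 0 ≤ ((N:ℝ)+1) ^ (-ε) := by positivity
  nlinarith

theorem not_bounded (h0 : riemannZeta ρ = 0) (h1 : ρ.re < 1) {M : ℝ}
    (hM : ∀ n, ‖Aa ρ n‖ ≤ M) : False := by
  set U : Set ℂ := {s | ρ.re < s.re ∧ ¬ (s.re = 1 ∧ s.im ≤ 0)} with hU
  have hUo : IsOpen U := by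
    apply IsOpen.inter
    · exact isOpen_lt continuous_const continuous_re
    · have : IsClosed {s : ℂ | s.re = 1 ∧ s.im ≤ 0} := by
        apply IsClosed.inter
        · exact isClosed_eq continuous_re continuous_const
        · exact isClosed_le continuous_im continuous_const
      exact this.isOpen_compl
  have hstar : StarConvex ℝ (1 + I) U := by
    intro s hs p t hp ht hpt
    obtain ⟨hs1, hs2⟩ := hs
    have e1 : (p • (1 + I) + t • s).re = p + t * s.re := by simp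
    have e2 : (p • (1 + I) + t • s).im = p + t * s.im := by simp
    constructor
    · change ρ.re < _
      rw [e1]
      rcases eq_or_lt_of_le ht with h | h
      · have : p = 1 := by linarith
        rw [← h, this]
        simpa using h1
      · have h3 : t * ρ.re < t * s.re := mul_lt_mul_of_pos_left hs1 h
        have h4 : p * ρ.re ≤ p * 1 := mul_le_mul_of_nonneg_left h1.le hp
        have h5 : (p + t) * ρ.re = ρ.re := by rw [hpt, one_mul]
        nlinarith
    · change ¬ (_ ∧ _)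
      rw [e1, e2]
      rintro ⟨h3, h4⟩
      rcases eq_or_lt_of_le ht with h | h
      · have : p = 1 := by linarith
        rw [← h, this] at h4
        norm_num at h4
      · have h5 : t * (s.re - 1) = 0 := by
          have : p = 1 - t := by linarith
          rw [this] at h3
          linarith
        have h6 : s.re = 1 := by
          rcases mul_eq_zero.1 h5 with h7 | h7
          · linarith
          · linarith
        have h7 : 0 < s.im := by
          by_contra h8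
          exact hs2 ⟨h6, not_lt.1 h8⟩
        have : 0 < t * s.im := mul_pos h h7
        linarith
  have hpU : (1 + I) ∈ U := by
    constructor
    · change ρ.re < _
      simpa using h1
    · change ¬ (_ ∧ _)
      simp
  have hUpre : IsPreconnected U := (hstar.isPathConnected hpU).isConnected.isPreconnected
  have h2U : (2:ℂ) ∈ U := by
    constructor
    · change ρ.re < _
      simp
      linarith
    · change ¬ (_ ∧ _)
      simp
  set f : ℂ → ℂ := fun s => Gg ρ (s - ρ) * riemannZeta s - 1 with hf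
  have hfd : DifferentiableOn ℂ f U := by
    intro s hs
    have hs1 : 0 < (s - ρ).re := by
      have := hs.1
      simp only [sub_re]
      linarith
    have hne : s ≠ 1 := by
      rintro rfl
      apply hs.2
      simp
    have d1 : DifferentiableAt ℂ (Gg ρ) (s - ρ) :=
      ((Gg_diff hM) (s - ρ) hs1).differentiableAt
        ((isOpen_lt continuous_const continuous_re).mem_nhds hs1)
    have d2 : DifferentiableAt ℂ (fun s => Gg ρ (s - ρ)) s := by
      have d3 : DifferentiableAt ℂ (fun s : ℂ => s - ρ) s := by fun_prop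
      exact DifferentiableAt.fun_comp' s d1 d3
    exact ((d2.mul (differentiableAt_riemannZeta hne)).sub_const 1).differentiableWithinAt
  have hfan : AnalyticOnNhd ℂ f U := hfd.analyticOnNhd hUo
  have hev : f =ᶠ[𝓝 (2:ℂ)] 0 := by
    have : {s : ℂ | 1 < s.re} ∈ 𝓝 (2:ℂ) :=
      (isOpen_lt continuous_const continuous_re).mem_nhds (by simp)
    filter_upwards [this] with s hs
    have := Gg_eq hM hs (by have h3 : 1 < s.re := hs; linarith)
    simp only [hf, this, sub_self, Pi.zero_apply]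
  have hzero := hfan.eqOn_zero_of_preconnected_of_eventuallyEq_zero hUpre h2U hev
  -- approach rho
  have hne1 : ρ ≠ 1 := by
    rintro rfl
    simp at h1
  have hcont : Tendsto (fun ε : ℝ => riemannZeta (ρ + ε)) (𝓝[>] 0) (𝓝 0) := by
    have c1 : ContinuousAt riemannZeta (ρ + ((0:ℝ):ℂ)) := by
      have := (differentiableAt_riemannZeta hne1).continuousAt
      simpa using this
    have c2 : ContinuousAt (fun ε : ℝ => riemannZeta (ρ + (ε:ℂ))) 0 := by
      apply ContinuousAt.comp (f := fun ε : ℝ => ρ + (ε:ℂ)) c1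
      fun_prop
    have c3 := c2.tendsto
    have : riemannZeta (ρ + ((0:ℝ):ℂ)) = 0 := by simpa using h0
    rw [this] at c3
    exact c3.mono_left nhdsWithin_le_nhds
  have hprod : ∀ᶠ ε : ℝ in 𝓝[>] (0:ℝ), 1 ≤ M * ‖riemannZeta (ρ + (ε:ℂ))‖ := by
    have h2 : ∀ᶠ ε in 𝓝[>] (0:ℝ), ε < 1 - ρ.re :=
      (eventually_lt_nhds (by linarith : (0:ℝ) < 1 - ρ.re)).filter_mono nhdsWithin_le_nhds
    have h3 : ∀ᶠ ε in 𝓝[>] (0:ℝ), 0 < ε := eventually_mem_nhdsWithin
    filter_upwards [h2, h3] with ε h2 h3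
    have hmem : ρ + (ε:ℂ) ∈ U := by
      constructor
      · change ρ.re < _
        simp
        exact h3
      · change ¬ (_ ∧ _)
        rintro ⟨h4, _⟩
        simp at h4
        linarith
    have h4 : f (ρ + ε) = 0 := hzero hmem
    simp only [hf] at h4
    have e : ρ + (ε:ℂ) - ρ = (ε:ℂ) := by ring
    rw [e] at h4
    have h5 : Gg ρ (ε:ℂ) * riemannZeta (ρ + ε) = 1 := by linear_combination h4
    have h6 : ‖Gg ρ (ε:ℂ)‖ * ‖riemannZeta (ρ + ε)‖ = 1 := by
      rw [← norm_mul, h5, norm_one]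
    rw [← h6]
    exact mul_le_mul_of_nonneg_right (Gg_bound hM h3) (norm_nonneg _)
  have hlim : Tendsto (fun ε : ℝ => M * ‖riemannZeta (ρ + ε)‖) (𝓝[>] 0) (𝓝 0) := by
    have := (hcont.norm).const_mul M
    simpa using this
  have := ge_of_tendsto hlim hprod
  linarith

end

/-- `c_K(s) = sum_{k=2}^K mu(k) k^{-s}` -/
noncomputable def cTrunc (K : ℕ) (s : ℂ) : ℂ :=
  ∑ k ∈ Finset.Icc 2 K, (ArithmeticFunction.moebius k : ℂ) * (k : ℂ) ^ (-s)

/-- the number of squarefree `K` with `2 ≤ K ≤ X` and `c_K(s) = 0` -/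
noncomputable def badCount (s : ℂ) (X : ℕ) : ℕ :=
  Set.ncard {K : ℕ | 2 ≤ K ∧ K ≤ X ∧ Squarefree K ∧ cTrunc K s = 0}

theorem cTrunc_succ {K : ℕ} (hK : 1 ≤ K) (s : ℂ) :
    cTrunc (K+1) s = cTrunc K s
      + (ArithmeticFunction.moebius (K+1) : ℂ) * ((K+1 : ℕ) : ℂ) ^ (-s) := by
  unfold cTrunc
  have : Icc 2 (K+1) = insert (K+1) (Icc 2 K) := by
    ext j
    simp only [Finset.mem_insert, Finset.mem_Icc]
    omega
  rw [this, Finset.sum_insert (by simp)]
  ring

theorem cTrunc_add {K : ℕ} (hK : 1 ≤ K) (s : ℂ) (j : ℕ) :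
    cTrunc (K+j) s = cTrunc K s
      + ∑ i ∈ Icc 1 j, (ArithmeticFunction.moebius (K+i) : ℂ) * ((K+i : ℕ) : ℂ) ^ (-s) := by
  induction j with
  | zero => simp
  | succ j ih =>
    have : Icc 1 (j+1) = insert (j+1) (Icc 1 j) := by
      ext k
      simp only [Finset.mem_insert, Finset.mem_Icc]
      omega
    rw [this, Finset.sum_insert (by simp), ← add_assoc, cTrunc_succ (by omega), ih]
    ring_nf

theorem gap {s : ℂ} (hs : 0 < s.re) {h K j : ℕ} (hK : (h:ℝ) ^ (h+1) * (‖s‖ + h) < K)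
    (hj : j ≤ h) (heq : cTrunc (K+j) s = cTrunc K s) :
    ∀ i, 1 ≤ i → i ≤ j → ArithmeticFunction.moebius (K+i) = 0 := by
  intro i hi1 hij
  by_contra hne
  have hK0 : (0:ℝ) < K := lt_of_le_of_lt (by positivity) hK
  have hK1 : 1 ≤ K := by
    have : 0 < K := by exact_mod_cast hK0
    omega
  set a : ℕ → ℤ := fun i => if i ≤ j then ArithmeticFunction.moebius (K+i) else 0 with ha
  have hx : (h:ℝ) ^ (h+1) * (‖s‖ + h) * (1 / K) < 1 := by
    rw [mul_one_div, div_lt_one hK0]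
    exact hK
  have h1 := main_ne hs (h := h) (a := a) (x := 1 / K) ?_ ⟨i, hi1, hij.trans hj, ?_⟩
    (by positivity) hx
  · apply h1
    have h2 := cTrunc_add hK1 s j
    rw [heq] at h2
    have h3 : ∑ i ∈ Icc 1 j, (ArithmeticFunction.moebius (K+i) : ℂ) * ((K+i : ℕ) : ℂ) ^ (-s)
        = 0 := by
      linear_combination -h2
    have h4 : ∑ i ∈ Icc 1 j, (ArithmeticFunction.moebius (K+i) : ℂ) * ((K+i : ℕ) : ℂ) ^ (-s)
        = (K:ℂ) ^ (-s) * ∑ i ∈ Icc 1 h, (a i : ℂ) * ff s (1 / K) i := by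
      rw [Finset.mul_sum]
      have h5 : ∑ i ∈ Icc 1 h, (K:ℂ) ^ (-s) * ((a i : ℂ) * ff s (1 / K) i)
          = ∑ i ∈ Icc 1 j, (K:ℂ) ^ (-s) * ((a i : ℂ) * ff s (1 / K) i) := by
        symm
        apply Finset.sum_subset
        · intro k hk
          simp only [Finset.mem_Icc] at hk ⊢
          omega
        · intro k hk hk2
          simp only [Finset.mem_Icc] at hk hk2
          have : a k = 0 := by
            simp only [ha]
            rw [if_neg (by omega)]
          simp [this]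
      rw [h5]
      apply Finset.sum_congr rfl
      intro k hk
      simp only [Finset.mem_Icc] at hk
      have e1 : a k = ArithmeticFunction.moebius (K+k) := by
        simp only [ha]
        rw [if_pos hk.2]
      rw [e1]
      have e2 : ((K+k : ℕ) : ℂ) = ((K:ℝ) : ℂ) * ((1 + (1 / K) * k : ℝ) : ℂ) := by
        have : (K:ℂ) ≠ 0 := by
          have : K ≠ 0 := by omega
          exact_mod_cast this
        push_cast
        field_simp
      rw [e2, Complex.mul_cpow_ofReal_nonneg hK0.le (by positivity)]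
      unfold ff
      push_cast
      ring
    rw [h4] at h3
    rcases mul_eq_zero.1 h3 with h6 | h6
    · exfalso
      have hKc : (K:ℂ) ≠ 0 := by
        have : K ≠ 0 := by omega
        exact_mod_cast this
      rw [Complex.cpow_eq_zero_iff] at h6
      exact hKc h6.1
    · exact h6
  · intro k
    simp only [ha]
    split_ifs
    · exact ArithmeticFunction.abs_moebius_le_one
    · simp
  · simp only [ha]
    rw [if_pos hij]
    exact hne

theorem badCount_le {s : ℂ} (hs : 0 < s.re) (h X : ℕ) :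
    (badCount s X : ℝ) ≤ (h:ℝ) ^ (h+1) * (‖s‖ + h) + X / (h+1) + 1 := by
  classical
  set B : ℝ := (h:ℝ) ^ (h+1) * (‖s‖ + h) with hB
  have hB0 : 0 ≤ B := by positivity
  set S : Finset ℕ := (Icc 2 X).filter (fun K => Squarefree K ∧ cTrunc K s = 0) with hS
  have e0 : badCount s X = S.card := by
    unfold badCount
    rw [← Set.ncard_coe_finset]
    congr 1
    ext K
    simp [hS, and_assoc]
  rw [e0]
  have hsplit := Finset.card_filter_add_card_filter_not (s := S) (fun K : ℕ => (K:ℝ) ≤ B)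
  have h1 : ((S.filter fun K : ℕ => (K:ℝ) ≤ B).card : ℝ) ≤ B := by
    have hsub : (S.filter fun K : ℕ => (K:ℝ) ≤ B) ⊆ Icc 1 ⌊B⌋₊ := by
      intro K hK
      simp only [hS, Finset.mem_filter, Finset.mem_Icc] at hK
      rw [Finset.mem_Icc]
      refine ⟨by omega, Nat.le_floor hK.2⟩
    have := Finset.card_le_card hsub
    rw [Nat.card_Icc] at this
    have h2 : ((S.filter fun K : ℕ => (K:ℝ) ≤ B).card : ℝ) ≤ ⌊B⌋₊ := by
      exact_mod_cast this
    exact h2.trans (Nat.floor_le hB0)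
  have h2 : ((S.filter fun K : ℕ => ¬ (K:ℝ) ≤ B).card : ℝ) ≤ X / (h+1) + 1 := by
    have hinj : Set.InjOn (fun K : ℕ => K / (h+1)) (S.filter fun K : ℕ => ¬ (K:ℝ) ≤ B) := by
      have key : ∀ K ∈ (S.filter fun K : ℕ => ¬ (K:ℝ) ≤ B),
          ∀ K' ∈ (S.filter fun K : ℕ => ¬ (K:ℝ) ≤ B), K / (h+1) = K' / (h+1) → ¬ K < K' := by
        intro K hK K' hK' heq hlt
        simp only [hS, Finset.mem_filter, Finset.mem_Icc, not_le] at hK hK'
        have h3 : K' - K ≤ h := by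
          have e1 := Nat.div_add_mod K (h+1)
          have e2 := Nat.div_add_mod K' (h+1)
          have e3 := Nat.mod_lt K (show 0 < h+1 by omega)
          have e4 := Nat.mod_lt K' (show 0 < h+1 by omega)
          rw [heq] at e1
          omega
        have h4 : K + (K' - K) = K' := by omega
        have h5 := gap hs (h := h) (K := K) (j := K' - K) hK.2 h3
          (by rw [h4, hK'.1.2.2, hK.1.2.2]) (K' - K) (by omega) le_rfl
        rw [h4] at h5
        exact (ArithmeticFunction.moebius_ne_zero_iff_squarefree.2 hK'.1.2.1) h5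
      intro K hK K' hK' heq
      rcases lt_trichotomy K K' with h3 | h3 | h3
      · exact absurd h3 (key K hK K' hK' heq)
      · exact h3
      · exact absurd h3 (key K' hK' K hK heq.symm)
    have hmap : Set.MapsTo (fun K : ℕ => K / (h+1)) (S.filter fun K : ℕ => ¬ (K:ℝ) ≤ B)
        (range (X / (h+1) + 1)) := by
      intro K hK
      simp only [hS, Finset.coe_filter, Finset.mem_filter, Finset.mem_Icc,
        Set.mem_ofPred_eq] at hK
      simp only [Finset.coe_range, Set.mem_Iio]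
      have := Nat.div_le_div_right (c := h+1) hK.1.1.2
      omega
    have := Finset.card_le_card_of_injOn _ hmap hinj
    rw [Finset.card_range] at this
    have h3 : ((S.filter fun K : ℕ => ¬ (K:ℝ) ≤ B).card : ℝ) ≤ ((X / (h+1) + 1 : ℕ) : ℝ) := by
      exact_mod_cast this
    have h4 : ((X / (h+1) : ℕ) : ℝ) ≤ (X:ℝ) / ((h+1 : ℕ) : ℝ) := Nat.cast_div_le
    push_cast at h3 h4
    linarith
  have h3 : (S.card : ℝ) = ((S.filter fun K : ℕ => (K:ℝ) ≤ B).card : ℝ)
      + ((S.filter fun K : ℕ => ¬ (K:ℝ) ≤ B).card : ℝ) := by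
    exact_mod_cast hsplit.symm
  rw [h3]
  linarith

theorem density {s : ℂ} (hs : 0 < s.re) :
    Tendsto (fun X : ℕ => (badCount s X : ℝ) / X) atTop (𝓝 0) := by
  rw [Metric.tendsto_atTop]
  intro ε hε
  obtain ⟨h, hh⟩ := exists_nat_gt (2 / ε)
  set C : ℝ := (h:ℝ) ^ (h+1) * (‖s‖ + h) + 1 with hC
  have hC0 : 0 < C := by positivity
  obtain ⟨N, hN⟩ := exists_nat_gt (2 * C / ε)
  refine ⟨N + 1, fun X hX => ?_⟩
  have hX0 : (0:ℝ) < X := by
    have : 0 < X := by omega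
    exact_mod_cast this
  have hXN : (N:ℝ) < X := by
    have : N < X := by omega
    exact_mod_cast this
  rw [Real.dist_eq, sub_zero, abs_of_nonneg (by positivity), div_lt_iff₀ hX0]
  have h1 := badCount_le hs h X
  have h2 : (X:ℝ) / (h+1) ≤ ε / 2 * X := by
    rw [div_le_iff₀ (by positivity)]
    have h3 : 2 < ε * h := by
      rw [div_lt_iff₀ hε] at hh
      linarith
    nlinarith
  have h3 : C < ε / 2 * X := by
    have h4 : 2 * C / ε < X := hN.trans hXN
    rw [div_lt_iff₀ hε] at h4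
    linarith
  linarith

theorem Aa_eq (ρ : ℂ) (n : ℕ) : Aa ρ n = 1 + cTrunc (n+1) ρ := by
  induction n with
  | zero => simp [Aa, co, cTrunc]
  | succ n ih =>
    have : Aa ρ (n+1) = Aa ρ n + co ρ (n+1) := by
      unfold Aa
      rw [Finset.sum_range_succ]
    rw [this, ih, cTrunc_succ (K := n+1) (by omega)]
    unfold co
    push_cast
    ring

theorem window {ρ : ℂ} (h0 : riemannZeta ρ = 0) (hp : 0 < ρ.re) (h1 : ρ.re < 1) (M : ℝ) :
    ∃ᶠ K : ℕ in atTop, ∀ j : ℕ, (j:ℝ) ≤ M * (K:ℝ) ^ ρ.re → cTrunc (K+j) ρ ≠ 0 := by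
  rw [Filter.Frequently]
  intro hev
  rw [eventually_atTop] at hev
  obtain ⟨N, hN⟩ := hev
  have hb : ∀ K ≥ N + 1, ‖cTrunc K ρ‖ ≤ |M| := by
    intro K hK
    have := hN K (by omega)
    push Not at this
    obtain ⟨j, hj, hz⟩ := this
    have hK0 : (0:ℝ) < K := by
      have : 0 < K := by omega
      exact_mod_cast this
    have h2 := cTrunc_add (K := K) (by omega) ρ j
    rw [hz] at h2
    have h3 : cTrunc K ρ = - ∑ i ∈ Icc 1 j,
        (ArithmeticFunction.moebius (K+i) : ℂ) * ((K+i : ℕ) : ℂ) ^ (-ρ) := by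
      linear_combination -h2
    rw [h3, norm_neg]
    refine (norm_sum_le _ _).trans ?_
    have h4 : ∀ i ∈ Icc 1 j, ‖(ArithmeticFunction.moebius (K+i) : ℂ)
        * ((K+i : ℕ) : ℂ) ^ (-ρ)‖ ≤ (K:ℝ) ^ (-ρ.re) := by
      intro i _
      rw [norm_mul]
      have h5 : ‖(ArithmeticFunction.moebius (K+i) : ℂ)‖ ≤ 1 := by
        rw [Complex.norm_intCast]
        exact_mod_cast ArithmeticFunction.abs_moebius_le_one
      have hKi : (0:ℝ) < ((K+i : ℕ) : ℝ) := by
        push_cast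
        positivity
      have h6 : ‖((K+i : ℕ) : ℂ) ^ (-ρ)‖ ≤ (K:ℝ) ^ (-ρ.re) := by
        have e : ((K+i : ℕ) : ℂ) = (((K+i : ℕ) : ℝ) : ℂ) := by push_cast; rfl
        rw [e, Complex.norm_cpow_eq_rpow_re_of_pos hKi]
        simp only [neg_re]
        apply Real.rpow_le_rpow_of_nonpos hK0 _ (by linarith)
        push_cast
        have : (0:ℝ) ≤ i := by positivity
        linarith
      calc _ ≤ 1 * ‖((K+i : ℕ) : ℂ) ^ (-ρ)‖ := mul_le_mul_of_nonneg_right h5 (norm_nonneg _)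
        _ ≤ _ := by rw [one_mul]; exact h6
    refine (Finset.sum_le_sum h4).trans ?_
    rw [Finset.sum_const, Nat.card_Icc, nsmul_eq_mul, Nat.add_sub_cancel]
    have h5 : (j:ℝ) * (K:ℝ) ^ (-ρ.re) ≤ M * (K:ℝ) ^ ρ.re * (K:ℝ) ^ (-ρ.re) :=
      mul_le_mul_of_nonneg_right hj (by positivity)
    have h6 : M * (K:ℝ) ^ ρ.re * (K:ℝ) ^ (-ρ.re) = M := by
      rw [mul_assoc, ← Real.rpow_add hK0]
      simp
    rw [h6] at h5
    exact h5.trans (le_abs_self M)
  -- global bound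
  obtain ⟨C, hC⟩ : ∃ C : ℝ, ∀ K < N + 1, ‖cTrunc K ρ‖ ≤ C := by
    refine ⟨∑ K ∈ range (N+1), ‖cTrunc K ρ‖, fun K hK => ?_⟩
    exact Finset.single_le_sum (f := fun K => ‖cTrunc K ρ‖) (fun i _ => norm_nonneg _)
      (Finset.mem_range.2 hK)
  apply not_bounded (ρ := ρ) h0 h1 (M := 1 + (|M| + |C|))
  intro n
  rw [Aa_eq]
  refine (norm_add_le _ _).trans ?_
  rw [norm_one]
  have : ‖cTrunc (n+1) ρ‖ ≤ |M| + |C| := by
    by_cases hn : n + 1 < N + 1
    · have := (hC (n+1) hn).trans (le_abs_self C)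
      have := abs_nonneg M
      linarith
    · have := hb (n+1) (by omega)
      have := abs_nonneg C
      linarith
  linarith

/-- Main result. -/
theorem result (ρ : ℂ) (h0 : riemannZeta ρ = 0) (hp : 0 < ρ.re) (h1 : ρ.re < 1) :
    (∀ K K' : ℕ, K < K' → Squarefree K' → cTrunc K ρ = 0 → cTrunc K' ρ = 0 →
      (K : ℝ) ≤ ((K' - K : ℕ) : ℝ) ^ (K' - K + 1) * (‖ρ‖ + (K' - K : ℕ))) ∧
    (∀ h X : ℕ, (badCount ρ X : ℝ) ≤ (h:ℝ) ^ (h+1) * (‖ρ‖ + h) + X / (h+1) + 1) ∧
    Tendsto (fun X : ℕ => (badCount ρ X : ℝ) / X) atTop (𝓝 0) ∧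
    (∀ M : ℝ, ∃ᶠ K : ℕ in atTop, ∀ j : ℕ, (j:ℝ) ≤ M * (K:ℝ) ^ ρ.re → cTrunc (K+j) ρ ≠ 0) := by
  refine ⟨?_, fun h X => badCount_le hp h X, density hp, fun M => window h0 hp h1 M⟩
  intro K K' hlt hsq hz hz'
  by_contra hcon
  push Not at hcon
  have h4 : K + (K' - K) = K' := by omega
  have h5 := gap hp (h := K' - K) (K := K) (j := K' - K) hcon le_rfl
    (by rw [h4, hz', hz]) (K' - K) (by omega) le_rfl
  rw [h4] at h5
  exact (ArithmeticFunction.moebius_ne_zero_iff_squarefree.2 hsq) h5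

end Pool.Agent.Results.MP_7e420e_nt.Sparse
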